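import Pool.Agent.H11.T4.Stmts

/-!
# Project T4, module STK: Stokes for the cup product
-/

open Finset

namespace Pool.T4

/-- the fundamental cycle also vanishes on coboundaries of real cochains -/
theorem stk_real {n : ℕ} (K : Cx n) (o : (Fin 5 → Fin n) → ℤ) (ho : IsFundCycle K o)
    (c : (Fin 4 → Fin n) → ℝ) : ∑ s ∈ simp K 4, (o s : ℝ) * cobd (k := 3) c s = 0 := by
  classical
  have key : ∀ s : Fin 5 → Fin n, cobd (k := 3) c s =
      ∑ t : Fin 4 → Fin n, c t * ((cobd (R := ℤ) (k := 3) (fun u => if u = t then 1 else 0) s : ℤ) : ℝ) := by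
    intro s
    unfold cobd
    push_cast
    simp only [Finset.mul_sum]
    rw [Finset.sum_comm]
    refine Finset.sum_congr rfl (fun i _ => ?_)
    rw [Finset.sum_eq_single (s ∘ i.succAbove)]
    · rw [if_pos rfl]; ring
    · intro t _ ht
      rw [if_neg (fun h => ht h.symm)]
      simp
    · intro h; exact absurd (Finset.mem_univ _) h
  simp only [key, Finset.mul_sum]
  rw [Finset.sum_comm]
  apply Finset.sum_eq_zero
  intro t _
  have h := ho.2 (fun u => if u = t then 1 else 0)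
  have h' : ∑ s ∈ simp K 4, (o s : ℝ) *
      ((cobd (R := ℤ) (k := 3) (fun u => if u = t then 1 else 0) s : ℤ) : ℝ) = 0 := by
    exact_mod_cast h
  calc ∑ s ∈ simp K 4, (o s : ℝ) * (c t *
      ((cobd (R := ℤ) (k := 3) (fun u => if u = t then 1 else 0) s : ℤ) : ℝ))
      = c t * ∑ s ∈ simp K 4, (o s : ℝ) *
      ((cobd (R := ℤ) (k := 3) (fun u => if u = t then 1 else 0) s : ℤ) : ℝ) := by
        rw [Finset.mul_sum]; exact Finset.sum_congr rfl (fun s _ => by ring)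
    _ = 0 := by rw [h', mul_zero]

theorem stk_face {n : ℕ} (K : Cx n) {k : ℕ} (s : Fin (k + 2) → Fin n) (hs : s ∈ simp K (k + 1))
    (i : Fin (k + 2)) : s ∘ i.succAbove ∈ simp K k := by
  classical
  unfold simp at hs ⊢
  rw [Finset.mem_filter] at hs ⊢
  refine ⟨Finset.mem_univ _, hs.2.1.comp (Fin.strictMono_succAbove i), ?_⟩
  refine (K.isRelLowerSet_faces hs.2.2).2 ?_ ⟨_, Finset.mem_image_of_mem _ (Finset.mem_univ 0)⟩
  intro x hx
  rw [Finset.mem_image] at hx ⊢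
  obtain ⟨j, -, rfl⟩ := hx
  exact ⟨i.succAbove j, Finset.mem_univ _, rfl⟩

theorem stk : STKStmt := by
  classical
  intro n K o ho z b hz
  have hvec : ∀ s : Fin 5 → Fin n, s = ![s 0, s 1, s 2, s 3, s 4] := by
    intro s; ext i; fin_cases i <;> rfl
  constructor
  · have h := stk_real K o ho (fun t => b ![t 0, t 1] * z ![t 1, t 2, t 3])
    rw [← h]
    unfold evalOn
    refine Finset.sum_congr rfl (fun s hs => ?_)
    have hf := hz _ (stk_face K s hs 0)
    congr 1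
    rw [hvec s] at hf ⊢
    generalize s 0 = x0 at hf ⊢
    generalize s 1 = x1 at hf ⊢
    generalize s 2 = x2 at hf ⊢
    generalize s 3 = x3 at hf ⊢
    generalize s 4 = x4 at hf ⊢
    have e1 : (![x0, x1, x2, x3, x4] : Fin 5 → Fin n) ∘ (0 : Fin 5).succAbove = ![x1, x2, x3, x4] := by
      ext j; fin_cases j <;> rfl
    have hf' : z ![x2, x3, x4] - z ![x1, x3, x4] + z ![x1, x2, x4] - z ![x1, x2, x3] = 0 := by
      have e2 : (![x1, x2, x3, x4] : Fin 4 → Fin n) ∘ (0 : Fin 4).succAbove = ![x2, x3, x4] := by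
        ext j; fin_cases j <;> rfl
      have e3 : (![x1, x2, x3, x4] : Fin 4 → Fin n) ∘ (1 : Fin 4).succAbove = ![x1, x3, x4] := by
        ext j; fin_cases j <;> rfl
      have e4 : (![x1, x2, x3, x4] : Fin 4 → Fin n) ∘ (2 : Fin 4).succAbove = ![x1, x2, x4] := by
        ext j; fin_cases j <;> rfl
      have e5 : (![x1, x2, x3, x4] : Fin 4 → Fin n) ∘ (3 : Fin 4).succAbove = ![x1, x2, x3] := by
        ext j; fin_cases j <;> rfl
      rw [e1] at hf
      unfold cobd at hf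
      rw [Fin.sum_univ_four, e2, e3, e4, e5] at hf
      norm_num at hf
      linarith
    have hc : cup (k := 2) (l := 2) (cobd (k := 1) b) z ![x0, x1, x2, x3, x4] =
        (b ![x1, x2] - b ![x0, x2] + b ![x0, x1]) * z ![x2, x3, x4] := by
      unfold cup cobd
      rw [Fin.sum_univ_three]
      have a1 : (fun i : Fin 3 => (![x0, x1, x2, x3, x4] : Fin 5 → Fin n) ⟨i, by omega⟩) ∘
          (0 : Fin 3).succAbove = ![x1, x2] := by ext j; fin_cases j <;> rfl
      have a2 : (fun i : Fin 3 => (![x0, x1, x2, x3, x4] : Fin 5 → Fin n) ⟨i, by omega⟩) ∘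
          (1 : Fin 3).succAbove = ![x0, x2] := by ext j; fin_cases j <;> rfl
      have a3 : (fun i : Fin 3 => (![x0, x1, x2, x3, x4] : Fin 5 → Fin n) ⟨i, by omega⟩) ∘
          (2 : Fin 3).succAbove = ![x0, x1] := by ext j; fin_cases j <;> rfl
      have a4 : (fun j : Fin 3 => (![x0, x1, x2, x3, x4] : Fin 5 → Fin n) ⟨2 + j, by omega⟩) =
          ![x2, x3, x4] := by ext j; fin_cases j <;> rfl
      rw [a1, a2, a3, a4]
      show ((-1 : ℝ) ^ (0 : ℕ) * b ![x1, x2] + (-1 : ℝ) ^ (1 : ℕ) * b ![x0, x2] +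
        (-1 : ℝ) ^ (2 : ℕ) * b ![x0, x1]) * z ![x2, x3, x4] = _
      ring
    rw [hc]
    have hd : cobd (k := 3) (fun t : Fin 4 → Fin n => b ![t 0, t 1] * z ![t 1, t 2, t 3])
        ![x0, x1, x2, x3, x4] =
        b ![x1, x2] * z ![x2, x3, x4] - b ![x0, x2] * z ![x2, x3, x4] +
        b ![x0, x1] * z ![x1, x3, x4] - b ![x0, x1] * z ![x1, x2, x4] +
        b ![x0, x1] * z ![x1, x2, x3] := by
      unfold cobd
      rw [Fin.sum_univ_five]
      have e2 : (![x0, x1, x2, x3, x4] : Fin 5 → Fin n) ∘ (1 : Fin 5).succAbove = ![x0, x2, x3, x4] := by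
        ext j; fin_cases j <;> rfl
      have e3 : (![x0, x1, x2, x3, x4] : Fin 5 → Fin n) ∘ (2 : Fin 5).succAbove = ![x0, x1, x3, x4] := by
        ext j; fin_cases j <;> rfl
      have e4 : (![x0, x1, x2, x3, x4] : Fin 5 → Fin n) ∘ (3 : Fin 5).succAbove = ![x0, x1, x2, x4] := by
        ext j; fin_cases j <;> rfl
      have e5 : (![x0, x1, x2, x3, x4] : Fin 5 → Fin n) ∘ (4 : Fin 5).succAbove = ![x0, x1, x2, x3] := by
        ext j; fin_cases j <;> rfl
      rw [e1, e2, e3, e4, e5]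
      show (-1 : ℝ) ^ (0 : ℕ) * (b ![x1, x2] * z ![x2, x3, x4]) +
        (-1 : ℝ) ^ (1 : ℕ) * (b ![x0, x2] * z ![x2, x3, x4]) +
        (-1 : ℝ) ^ (2 : ℕ) * (b ![x0, x1] * z ![x1, x3, x4]) +
        (-1 : ℝ) ^ (3 : ℕ) * (b ![x0, x1] * z ![x1, x2, x4]) +
        (-1 : ℝ) ^ (4 : ℕ) * (b ![x0, x1] * z ![x1, x2, x3]) = _
      norm_num
      ring
    rw [hd]
    linear_combination (b ![x0, x1]) * hf'
  · have h := stk_real K o ho (fun t => z ![t 0, t 1, t 2] * b ![t 2, t 3])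
    rw [← h]
    unfold evalOn
    refine Finset.sum_congr rfl (fun s hs => ?_)
    have hf := hz _ (stk_face K s hs 4)
    congr 1
    rw [hvec s] at hf ⊢
    generalize s 0 = x0 at hf ⊢
    generalize s 1 = x1 at hf ⊢
    generalize s 2 = x2 at hf ⊢
    generalize s 3 = x3 at hf ⊢
    generalize s 4 = x4 at hf ⊢
    have e5 : (![x0, x1, x2, x3, x4] : Fin 5 → Fin n) ∘ (4 : Fin 5).succAbove = ![x0, x1, x2, x3] := by
      ext j; fin_cases j <;> rfl
    have hf' : z ![x1, x2, x3] - z ![x0, x2, x3] + z ![x0, x1, x3] - z ![x0, x1, x2] = 0 := by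
      have e2 : (![x0, x1, x2, x3] : Fin 4 → Fin n) ∘ (0 : Fin 4).succAbove = ![x1, x2, x3] := by
        ext j; fin_cases j <;> rfl
      have e3 : (![x0, x1, x2, x3] : Fin 4 → Fin n) ∘ (1 : Fin 4).succAbove = ![x0, x2, x3] := by
        ext j; fin_cases j <;> rfl
      have e4 : (![x0, x1, x2, x3] : Fin 4 → Fin n) ∘ (2 : Fin 4).succAbove = ![x0, x1, x3] := by
        ext j; fin_cases j <;> rfl
      have e6 : (![x0, x1, x2, x3] : Fin 4 → Fin n) ∘ (3 : Fin 4).succAbove = ![x0, x1, x2] := by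
        ext j; fin_cases j <;> rfl
      rw [e5] at hf
      unfold cobd at hf
      rw [Fin.sum_univ_four, e2, e3, e4, e6] at hf
      norm_num at hf
      linarith
    have hc : cup (k := 2) (l := 2) z (cobd (k := 1) b) ![x0, x1, x2, x3, x4] =
        z ![x0, x1, x2] * (b ![x3, x4] - b ![x2, x4] + b ![x2, x3]) := by
      unfold cup cobd
      rw [Fin.sum_univ_three]
      have a1 : (fun j : Fin 3 => (![x0, x1, x2, x3, x4] : Fin 5 → Fin n) ⟨2 + j, by omega⟩) ∘
          (0 : Fin 3).succAbove = ![x3, x4] := by ext j; fin_cases j <;> rfl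
      have a2 : (fun j : Fin 3 => (![x0, x1, x2, x3, x4] : Fin 5 → Fin n) ⟨2 + j, by omega⟩) ∘
          (1 : Fin 3).succAbove = ![x2, x4] := by ext j; fin_cases j <;> rfl
      have a3 : (fun j : Fin 3 => (![x0, x1, x2, x3, x4] : Fin 5 → Fin n) ⟨2 + j, by omega⟩) ∘
          (2 : Fin 3).succAbove = ![x2, x3] := by ext j; fin_cases j <;> rfl
      have a4 : (fun i : Fin 3 => (![x0, x1, x2, x3, x4] : Fin 5 → Fin n) ⟨i, by omega⟩) =
          ![x0, x1, x2] := by ext j; fin_cases j <;> rfl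
      rw [a1, a2, a3, a4]
      show z ![x0, x1, x2] * ((-1 : ℝ) ^ (0 : ℕ) * b ![x3, x4] + (-1 : ℝ) ^ (1 : ℕ) * b ![x2, x4] +
        (-1 : ℝ) ^ (2 : ℕ) * b ![x2, x3]) = _
      ring
    rw [hc]
    have hd : cobd (k := 3) (fun t : Fin 4 → Fin n => z ![t 0, t 1, t 2] * b ![t 2, t 3])
        ![x0, x1, x2, x3, x4] =
        z ![x1, x2, x3] * b ![x3, x4] - z ![x0, x2, x3] * b ![x3, x4] +
        z ![x0, x1, x3] * b ![x3, x4] - z ![x0, x1, x2] * b ![x2, x4] +
        z ![x0, x1, x2] * b ![x2, x3] := by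
      unfold cobd
      rw [Fin.sum_univ_five]
      have e1 : (![x0, x1, x2, x3, x4] : Fin 5 → Fin n) ∘ (0 : Fin 5).succAbove = ![x1, x2, x3, x4] := by
        ext j; fin_cases j <;> rfl
      have e2 : (![x0, x1, x2, x3, x4] : Fin 5 → Fin n) ∘ (1 : Fin 5).succAbove = ![x0, x2, x3, x4] := by
        ext j; fin_cases j <;> rfl
      have e3 : (![x0, x1, x2, x3, x4] : Fin 5 → Fin n) ∘ (2 : Fin 5).succAbove = ![x0, x1, x3, x4] := by
        ext j; fin_cases j <;> rfl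
      have e4 : (![x0, x1, x2, x3, x4] : Fin 5 → Fin n) ∘ (3 : Fin 5).succAbove = ![x0, x1, x2, x4] := by
        ext j; fin_cases j <;> rfl
      rw [e1, e2, e3, e4, e5]
      show (-1 : ℝ) ^ (0 : ℕ) * (z ![x1, x2, x3] * b ![x3, x4]) +
        (-1 : ℝ) ^ (1 : ℕ) * (z ![x0, x2, x3] * b ![x3, x4]) +
        (-1 : ℝ) ^ (2 : ℕ) * (z ![x0, x1, x3] * b ![x3, x4]) +
        (-1 : ℝ) ^ (3 : ℕ) * (z ![x0, x1, x2] * b ![x2, x4]) +
        (-1 : ℝ) ^ (4 : ℕ) * (z ![x0, x1, x2] * b ![x2, x3]) = _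
      norm_num
      ring
    rw [hd]
    linear_combination (-(b ![x3, x4])) * hf'

end Pool.T4
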