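import Pool.Agent.H11.T4.Stmts

/-!
# Project T4, module FMP: the map to the torus given by four integral 1-cocycles
-/

open Finset

namespace Pool.T4

/-- the lift on the open star of `v` -/
def fmpLift {n : ℕ} (x : (Fin 2 → Fin n) → ℤ) (v : Fin n) (p : Fin n → ℝ) : ℝ :=
  ∑ w, p w * (alt x v w : ℝ)

theorem fmp_exists {n : ℕ} {K : Cx n} (p : Geom K) : ∃ v, p.1 v ≠ 0 := by
  by_contra h
  push Not at h
  have h1 := p.2.2.1
  rw [Finset.sum_eq_zero (fun i _ => h i)] at h1
  exact zero_ne_one h1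

theorem fmp_indep (hA : ALTStmt) {n : ℕ} (K : Cx n) (x : (Fin 2 → Fin n) → ℤ)
    (hx : IsCocycle (k := 1) K x) (p : Geom K) (v v' : Fin n) (hv : p.1 v ≠ 0) (hv' : p.1 v' ≠ 0) :
    ((fmpLift x v p.1 : ℝ) : AddCircle (1 : ℝ)) = ((fmpLift x v' p.1 : ℝ) : AddCircle (1 : ℝ)) := by
  classical
  have h1 : fmpLift x v' p.1 = fmpLift x v p.1 + (alt x v' v : ℝ) := by
    have h2 : (alt x v' v : ℝ) = ∑ w, p.1 w * (alt x v' v : ℝ) := by
      rw [← Finset.sum_mul, p.2.2.1, one_mul]
    rw [h2]
    unfold fmpLift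
    rw [← Finset.sum_add_distrib]
    refine Finset.sum_congr rfl (fun w _ => ?_)
    by_cases hw : p.1 w = 0
    · rw [hw]; ring
    · have h3 : ({v', v, w} : Finset (Fin n)) ∈ K.faces := by
        refine (K.isRelLowerSet_faces p.2.2.2).2 ?_ ⟨v', by simp⟩
        intro i hi
        simp only [Finset.mem_insert, Finset.mem_singleton] at hi
        rw [Finset.mem_filter]
        refine ⟨Finset.mem_univ _, ?_⟩
        rcases hi with rfl | rfl | rfl <;> assumption
      have h4 := hA n K x hx v' v w h3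
      have h5 : (alt x v' w : ℝ) = (alt x v' v : ℝ) + (alt x v w : ℝ) := by exact_mod_cast h4.symm
      rw [h5]; ring
  rw [h1, AddCircle.coe_add]
  have h6 : (((alt x v' v : ℤ) : ℝ) : AddCircle (1 : ℝ)) = 0 := by
    have := AddCircle.coe_eq_zero_iff (p := (1 : ℝ)) (x := ((alt x v' v : ℤ) : ℝ))
    rw [this]
    exact ⟨alt x v' v, by simp⟩
  rw [h6, add_zero]

theorem fmp (hA : ALTStmt) : FMPStmt := by
  classical
  intro n K x hx
  choose V hV using fun p : Geom K => fmp_exists p
  let f : Geom K → Torus4 := fun p i => ((fmpLift (x i) (V p) p.1 : ℝ) : AddCircle (1 : ℝ))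
  have hf : ∀ (p : Geom K) (v : Fin n), p.1 v ≠ 0 → ∀ i,
      f p i = ((fmpLift (x i) v p.1 : ℝ) : AddCircle (1 : ℝ)) :=
    fun p v hv i => fmp_indep hA K (x i) (hx i) p (V p) v (hV p) hv
  have hcont : Continuous f := by
    rw [continuous_pi_iff]
    intro i
    rw [continuous_iff_continuousAt]
    intro p
    have h1 : ContinuousAt (fun q : Geom K => ((fmpLift (x i) (V p) q.1 : ℝ) : AddCircle (1 : ℝ)))
        p := by
      apply Continuous.continuousAt
      refine (AddCircle.continuous_mk' (1 : ℝ)).comp ?_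
      unfold fmpLift
      exact continuous_finset_sum _ (fun w _ =>
        ((continuous_apply w).comp continuous_subtype_val).mul continuous_const)
    refine h1.congr ?_
    have h2 : ∀ᶠ q : Geom K in nhds p, q.1 (V p) ≠ 0 := by
      have h3 : Continuous (fun q : Geom K => q.1 (V p)) :=
        (continuous_apply (V p)).comp continuous_subtype_val
      exact h3.continuousAt.eventually_ne (hV p)
    filter_upwards [h2] with q hq
    exact (hf q (V p) hq i).symm
  exact ⟨⟨f, hcont⟩, hx, fun p v hv i => hf p v hv i⟩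

end Pool.T4
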